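import Pool.Agent.X246.ACR.Fin

/-!
# Unique games are not hard under constant-depth reductions or reductions by small formulas

The conjecture asks for polynomial-time reductions. Here it is proved that for all `ε + δ < 1` and all
`q` the problem `UG_q(ε, δ)` is not hard for `NP`, not even for parity (the language of the strings
with an odd number of ones), under many-one reductions that are computed by circuits of constant
depth, or by De Morgan formulas of size `o((N / log N)²)` for each bit. The reductions may be
randomised and need not be correct for all inputs.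

A reduction maps an input `x` with `N` bits to a list of edges with constraints, indexed by `R`
(`Y x r`, where `none` is an empty entry). `Correct Sat ε δ Y x`
(`Pool/Agent/X246/ACR/Ac0.lean`) says that the list is not empty and that its value is at least
`1 - ε` if the number of ones of `x` is even, and at most `δ` if it is odd. Each entry is encoded by
`b` bits, in an arbitrary way (`dec r`); for reductions of polynomial size `b = O(log N)`.

1. For an arbitrary function `Y`, correct for a fraction `1 / 2 + γ` of the inputs: a constraint is
   changed, on the average over the inputs and over the constraints of the instance, by at least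
   `(1 - ε - δ) γ N` of the `N` changes of a single bit of the input.
2. Circuits of depth `h` with NOT gates and with AND and OR gates of unbounded fan-in (`Circuit`,
   `Pool/Agent/H568R2/Defs.lean`) have size at least `γ 2 ^ (X ^ (1 / (h + 1)) / 100)`, where
   `X = (1 - ε - δ) γ N / b`, if `X` is large.
3. De Morgan formulas for the bits of a list with a fixed number of edges have size at least `X²`.

In 2 and 3 `Ω` is the set of the random choices, and it is enough that the reduction is correct with
probability `1 / 2 + γ` for a random input and a random choice.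

The proof: if `x` is mapped to a yes instance and `x'` to a no instance then at least the fraction
`1 - ε - δ` of the constraints of one of them is not in the other. So the fraction of the constraints
that are changed if a random bit of a random input is changed is at least `(1 - ε - δ) γ`. On the
other hand, under a random restriction all bits computed by a circuit of small depth become decision
trees of small depth (switching lemma); the stars of the restriction and its random completion are
handled by taking the mean over all restrictions, so that correctness for slightly more than half of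
the inputs is enough. For formulas the bound of Khrapchenko shows that the average sensitivity is at
most the square root of the size.
-/

set_option autoImplicit false

namespace Pool.Agent.Results.MP_325f1f_lc.ConstantDepthReductions

open Finset DomAC0 Pool.Agent.X246.ACR

open scoped Classical

/-- An edge `(u, v)` of a unique game with the alphabet `[q]`, and its constraint. -/
abbrev Edge (U V : Type) (q : ℕ) : Type := U × V × Equiv.Perm (Fin q)

/-- The labeling `l` satisfies the constraint: the permutation maps the label of `u` to that of `v`. -/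
def Sat {U V : Type} {q : ℕ} (l : (U → Fin q) × (V → Fin q)) (e : Edge U V q) : Prop :=
  e.2.2 (l.1 e.1) = l.2 e.2.1

/-- (1) If the list `Y x` is a yes instance of `UG_q(ε, δ)` for even and a no instance for odd `x`, for
at least a fraction `1 / 2 + γ` of the inputs `x` with `N` bits, then the number of the input bits to
which a constraint of `Y x` is sensitive is on the average at least `(1 - ε - δ) γ N`.

(2) For every depth `h` there is `X₀` such that if the entries of the list are encoded by `b` nodes
of depth at most `h` of circuits `C ω`, if the reduction is correct for at least a fraction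
`1 / 2 + γ` of the pairs `(ω, x)`, and if `X = (1 - ε - δ) γ N / b ≥ X₀`, then some `C ω` has at least
`γ 2 ^ (X ^ (1 / (h + 1)) / 100)` gates.

(3) If the list has a fixed number of edges, each encoded by `b` bits which are computed by De Morgan
formulas with at most `S` literals, then `S ≥ ((1 - ε - δ) γ N / b) ^ 2`. -/
theorem result :
    (∀ (N q : ℕ) (R U V : Type) [Fintype R] (ε δ γ : ℝ), 0 ≤ ε → 0 ≤ δ → ε + δ < 1 →
      ∀ Y : (Fin N → Bool) → R → Option (Edge U V q),
        (1 / 2 + γ) * 2 ^ N ≤ ((univ.filter fun x => Correct Sat ε δ Y x).card : ℝ) →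
        (1 - ε - δ) * γ * N ≤ (∑ x, meanSens Y x) / 2 ^ N) ∧
    (∀ h : ℕ, ∃ X₀ : ℝ, ∀ (N b q : ℕ) (Ω R U V : Type) [Fintype Ω] [Nonempty Ω] [Fintype R]
      (ε δ γ : ℝ) (C : Ω → Circuit (Fin N)) (out : ∀ ω, R → Fin b → Fin N ⊕ Fin (C ω).size)
      (dec : R → (Fin b → Bool) → Option (Edge U V q)),
      1 ≤ b → (∀ ω r j, (C ω).nodeDepth (out ω r j) ≤ h) → 0 ≤ ε → 0 ≤ δ → ε + δ < 1 → 0 < γ →
      (1 / 2 + γ) * (2 ^ N * Fintype.card Ω) ≤
        ((univ.filter fun p : Ω × (Fin N → Bool) =>
          Correct Sat ε δ (inst (C p.1) (out p.1) dec) p.2).card : ℝ) →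
      X₀ ≤ (1 - ε - δ) * γ * N / b →
      ∃ ω, γ * (2 : ℝ) ^ (((1 - ε - δ) * γ * N / b) ^ (1 / (h + 1 : ℝ)) / 100) ≤ (C ω).size) ∧
    (∀ (N b q : ℕ) (Ω R U V : Type) [Fintype Ω] [Nonempty Ω] [Fintype R] (ε δ γ : ℝ)
      (F : Ω → R → Fin b → DeMorgan (Fin N)) (dec : R → (Fin b → Bool) → Edge U V q) (S : ℕ),
      1 ≤ b → (∀ ω r j, (F ω r j).size ≤ S) → 0 ≤ ε → 0 ≤ δ → ε + δ < 1 → 0 < γ →
      (1 / 2 + γ) * (2 ^ N * Fintype.card Ω) ≤
        ((univ.filter fun p : Ω × (Fin N → Bool) =>
          Correct Sat ε δ (fun x r => some (dec r fun j => (F p.1 r j).eval x)) p.2).card : ℝ) →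
      ((1 - ε - δ) * γ * N / b) ^ 2 ≤ S) := by
  refine ⟨?_, fun h => ?_, ?_⟩
  · intro N q R U V _ ε δ γ hε hδ hεδ Y hA
    exact sens_main hε hδ hεδ Y hA
  · obtain ⟨X₀, H⟩ := ac0_main h
    refine ⟨X₀, ?_⟩
    intro N b q Ω R U V _ _ _ ε δ γ C out dec hb hh hε hδ hεδ hγ hA hX
    obtain ⟨ω, hω⟩ := exists_index (fun ω x => Correct Sat ε δ (inst (C ω) (out ω) dec) x) γ hA
    exact ⟨ω, H Sat (C ω) (out ω) dec ε δ γ hb (hh ω) hε hδ hεδ hγ hω hX⟩
  · intro N b q Ω R U V _ _ _ ε δ γ F dec S hb hS hε hδ hεδ hγ hA
    obtain ⟨ω, hω⟩ := exists_index (fun ω x => Correct Sat ε δ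
      (fun x r => some (dec r fun j => (F ω r j).eval x)) x) γ hA
    have h1 := form_main hε hδ hεδ (F ω) dec S (hS ω) hω
    have hb0 : (0 : ℝ) < b := by exact_mod_cast hb
    have h2 : (1 - ε - δ) * γ * N / b ≤ √S := by
      rw [div_le_iff₀ hb0, mul_comm (√(S : ℝ))]
      exact h1
    have h3 : 0 ≤ (1 - ε - δ) * γ * N / b := by
      have : 0 ≤ 1 - ε - δ := by linarith
      positivity
    calc ((1 - ε - δ) * γ * N / b) ^ 2 ≤ √S ^ 2 := pow_le_pow_left₀ h3 h2 2
      _ = S := Real.sq_sqrt (Nat.cast_nonneg _)

end Pool.Agent.Results.MP_325f1f_lc.ConstantDepthReductions
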