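import Pool.Agent.X246.UGF.Fault

/-!
# The Unique Games Conjecture for circuits with unreliable negations

A unique game with `N` left vertices, `N` right vertices and alphabet `[q]` is given by bits: for all
left vertices `u`, right vertices `v`, permutations `π` of the labels and tags `j < K`, the bit of the
position `((u, v, π), j)` tells whether there is an edge between `u` and `v` with the constraint `π`
and the tag `j`. Only games in which no constraint occurs with two tags are considered (so no edge
is repeated); the tag has no meaning.

The model: randomised circuits whose inputs are these bits and their negations, with gates that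
compute arbitrary nondecreasing real functions of two arguments. All circuits with AND, OR and NOT
gates can be brought into this form by doubling their size. No bound on the depth is assumed. A
randomised circuit is a finite nonempty family of circuits from which one is chosen uniformly at
random.

Faults: each negated input (the information that there is no such edge at a position) is stuck at
`0`, independently with probability `1 / D`. The other inputs are reliable.

Result: for all `q ≥ 2` and `δ > 1 / q`, all large `N`, all `ε ≥ N ^ (-1/139)`, all `D` and all
`K ≥ D (2 log N + q log q + 4)`: randomised circuits which accept the games of value at most `δ` with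
probability at least `4 / 5` under faults, and the games of value at least `1 - ε` with probability at
most `1 / 4` without faults, need `(2 ^ (N ^ (1 / 139)) - 2) / 3` gates. It is enough that they do this
for the games with exactly `m` edges (in the first case) and at least `m` edges of which some labeling
violates at most `ε m` (in the second case), for a number `m` which depends on `q`, `δ` and `N`.

* So exponential size is necessary if an arbitrarily small constant fraction `1 / D` of the negated
  inputs is unreliable, and `K = O(D log N)` tags are enough. Without faults this would be an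
  unconditional form of the conjecture (for circuits, instead of NP-hardness), with the optimal
  relation `δ > 1 / q` between soundness and alphabet size.
* For `D = 1` all negated inputs are faulty: this is the case of monotone circuits, the starting
  result `MonotoneCircuits`, which is used in the proof.
* For `ε = 0` the statement fails, since propagation of labels is done by monotone circuits of
  polynomial size.

The proof: the edges of a game without tags get random tags. The tagged game shows only the tags of
its edges, and the positions that the other constraints would get are as good as random faulty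
inputs. So all negated inputs that depend on the game without tags can be replaced by `0`, and this
gives a monotone randomised circuit for the games without tags.
-/

set_option autoImplicit false

namespace Pool.Agent.Results.MP_325f1f_lc.FaultyNegations

open Finset

/-- A circuit with the gates `0, ..., s - 1` whose inputs are the bits of the positions `e` in `E` and
their negations: `(e, true)` stands for the bit of `e` and `(e, false)` for its negation. Gate `i`
has `w i ≤ 2` inputs, namely `a i j`, each a literal (`0` or `1`) or an earlier gate; it computes a
nondecreasing function `op i` of real numbers, and its value on the values `y` of the literals is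
`val y i`. The circuit accepts if the value of gate `out` is at least `τ`. -/
structure LiteralCircuit (E : Type) where
  s : ℕ
  w : Fin s → ℕ
  a : (i : Fin s) → Fin (w i) → (E × Bool) ⊕ Fin s
  op : (i : Fin s) → (Fin (w i) → ℝ) → ℝ
  val : (E × Bool → Bool) → Fin s → ℝ
  out : Fin s
  τ : ℝ
  earlier : ∀ i j m, a i j = Sum.inr m → m < i
  mono : ∀ i, w i ≤ 2 ∧ Monotone (op i)
  spec : ∀ y i, val y i = op i (fun j =>
    Sum.elim (fun p => if y p = true then (1 : ℝ) else 0) (val y) (a i j))

/-- The positions `((u, v, π), j)`: an edge between the left vertex `u` and the right vertex `v` with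
the tag `j` and the constraint that the permutation `π` maps the label of `u` to the label of `v`. -/
abbrev Position (N q K : ℕ) : Type := (Fin N × Fin N × Equiv.Perm (Fin q)) × Fin K

/-- No constraint occurs with two tags in the game (the set of the positions `e` with
`x e = true`). -/
def OneTag {N q K : ℕ} (x : Position N q K → Bool) : Prop :=
  ∀ e e', x e = true → x e' = true → e.1 = e'.1 → e = e'

/-- The labeling satisfies the edge. -/
def Satisfies {N q K : ℕ} (A B : Fin N → Fin q) (e : Position N q K) : Prop :=
  e.1.2.2 (A e.1.1) = B e.1.2.1

open Classical in
/-- Games with exactly `m` edges of value at most `δ`: every labeling satisfies at most `δ m` of the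
`m` edges. -/
def ValueAtMost {N q K : ℕ} (m : ℕ) (δ : ℝ) (x : Position N q K → Bool) : Prop :=
  OneTag x ∧ (univ.filter fun e => x e = true).card = m ∧ ∀ A B : Fin N → Fin q,
    ((univ.filter fun e => x e = true ∧ Satisfies A B e).card : ℝ) ≤ δ * m

open Classical in
/-- Games with at least `m` edges of which some labeling violates at most `ε m`, so that their value
is at least `1 - ε`. -/
def AlmostSatisfiable {N q K : ℕ} (m : ℕ) (ε : ℝ) (x : Position N q K → Bool) : Prop :=
  OneTag x ∧ m ≤ (univ.filter fun e => x e = true).card ∧ ∃ A B : Fin N → Fin q,
    ((univ.filter fun e => x e = true ∧ ¬ Satisfies A B e).card : ℝ) ≤ ε * m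

open Classical in
/-- The values of the literals on the game `x` if the negated inputs of the positions in `Z` are
stuck at `0`. -/
noncomputable def literals {E : Type} (x : E → Bool) (Z : Set E) : E × Bool → Bool :=
  fun p => if p.2 = true then x p.1 else if p.1 ∈ Z then false else !x p.1

/-- The circuit accepts the game `x` if the negated inputs of the positions in `Z` are stuck at
`0`. -/
def LiteralCircuit.Accepts {E : Type} (C : LiteralCircuit E) (x : E → Bool) (Z : Set E) : Prop :=
  C.τ ≤ C.val (literals x Z) C.out

/-- The probability that the game `x` is accepted by a circuit that is chosen uniformly at random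
from the family `C`, without faults. -/
noncomputable def acceptance {E R : Type} (C : R → LiteralCircuit E) (x : E → Bool) : ℝ :=
  (Nat.card {ρ : R // (C ρ).Accepts x ∅} : ℝ) / Nat.card R

/-- The probability that the game `x` is accepted by a circuit that is chosen uniformly at random
from the family `C`, if each negated input is stuck at `0` independently with probability `1 / D`
(each position `e` gets a random number `f e` from `0` to `D - 1`, and `0` means a fault). -/
noncomputable def faultyAcceptance {E R : Type} (C : R → LiteralCircuit E) (D : ℕ)
    (x : E → Bool) : ℝ :=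
  (Nat.card {v : R × (E → Fin D) // (C v.1).Accepts x {e | (v.2 e : ℕ) = 0}} : ℝ) /
    Nat.card (R × (E → Fin D))

/-- For all `q ≥ 2` and `δ > 1 / q` there is `N0` such that for all `N ≥ N0` there is `m > 0` such that
for all `ε ≥ N ^ (-1/139)`, `D ≥ 1` and `K ≥ D (2 log N + q log q + 4)` the following holds. If a finite
nonempty family of circuits on literals with nondecreasing real gates of fan-in at most two and with
at most `s` gates accepts every unique game (with `N + N` vertices, alphabet `[q]`, `m` edges and tags
`j < K` at the edges) of value at most `δ` with probability at least `4 / 5`, even if each negated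
input is stuck at `0` independently with probability `1 / D`, and every game with at least `m` edges
of which some labeling violates at most `ε m` with probability at most `1 / 4` (without faults), then
`2 ^ (N ^ (1 / 139)) ≤ 3 s + 2`. -/
theorem result (q : ℕ) (hq : 2 ≤ q) (δ : ℝ) (hδ : 1 / (q : ℝ) < δ) :
    ∃ N0 : ℕ, ∀ N : ℕ, N0 ≤ N → ∃ m : ℕ, 0 < m ∧ ∀ ε : ℝ, (N : ℝ) ^ (-(1 / 139) : ℝ) ≤ ε →
      ∀ D K : ℕ, 1 ≤ D → D * (2 * Real.log N + q * Real.log q + 4) ≤ K →
      ∀ (R : Type) [Finite R] [Nonempty R] (C : R → LiteralCircuit (Position N q K)) (s : ℕ),
        (∀ ρ, (C ρ).s ≤ s) →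
        (∀ x, ValueAtMost m δ x → 4 / 5 ≤ faultyAcceptance C D x) →
        (∀ x, AlmostSatisfiable m ε x → acceptance C x ≤ 1 / 4) →
        (2 : ℝ) ^ ((N : ℝ) ^ (1 / 139 : ℝ)) ≤ 3 * s + 2 := by
  classical
  obtain ⟨N0, H⟩ := Pool.Agent.X246.UGF.ug_fault q (by omega) δ hδ
  refine ⟨N0, ?_⟩
  intro N hN
  obtain ⟨m, hm, H⟩ := H N hN
  refine ⟨m, hm, ?_⟩
  intro ε hε D K hD hK R _ _ C s hs h1 h2
  let _ : Fintype R := Fintype.ofFinite R
  have hR : (0 : ℝ) < Fintype.card R := by exact_mod_cast Fintype.card_pos
  have hDR : (0 : ℝ) < D := by exact_mod_cast hD
  have hlit : ∀ (x : Position N q K → Bool) (Z : Set (Position N q K)),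
      Pool.Agent.Y630.TF.lit x Z = literals x Z := by
    intro x Z
    funext q
    unfold Pool.Agent.Y630.TF.lit literals
    by_cases hq : q.2 = true
    · rw [if_pos hq, if_pos hq]
    · rw [if_neg hq, if_neg hq]
      by_cases hZ : q.1 ∈ Z
      · simp [hZ]
      · simp [hZ]
  set C' : R → Pool.Agent.W969.MC.RC (Position N q K × Bool) := fun ρ => ⟨(C ρ).s, ∅, (C ρ).w,
    (C ρ).a, (C ρ).op, fun _ _ => 0, (C ρ).val, (C ρ).out, (C ρ).τ, (C ρ).earlier,
    fun i _ => (C ρ).mono i, fun i hi => absurd hi (Finset.notMem_empty i), (C ρ).spec⟩ with hC'
  refine H ε hε D K hD hK R C' s (fun _ => rfl) hs (fun x hx => ?_) (fun x hx => ?_)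
  · have h3 := h1 x ⟨hx.1, by convert hx.2.1, fun A B => by
      have h4 := hx.2.2 A B
      unfold Satisfies
      convert h4⟩
    unfold faultyAcceptance at h3
    rw [le_div_iff₀ (by
      rw [Nat.card_eq_fintype_card, Fintype.card_prod, Fintype.card_fun, Fintype.card_fin]
      push_cast
      positivity)] at h3
    rw [Nat.card_eq_fintype_card (α := R × (Position N q K → Fin D)), Fintype.card_prod,
      Fintype.card_fun, Fintype.card_fin] at h3
    refine (le_of_eq ?_).trans (h3.trans (le_of_eq ?_))
    · push_cast
      rfl
    congr 1
    show Nat.card ↥{v : R × (Position N q K → Fin D) |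
      (C v.1).Accepts x {c | (v.2 c : ℕ) = 0}} = _
    rw [Nat.card_coe_set_eq]
    congr 1
    ext v
    show (C v.1).τ ≤ (C v.1).val (literals x {c | (v.2 c : ℕ) = 0}) (C v.1).out ↔
      (C v.1).τ ≤ (C v.1).val (Pool.Agent.Y630.TF.lit x (Pool.Agent.Y630.NW.Flt v.2)) (C v.1).out
    rw [hlit]
    rfl
  · have h3 := h2 x ⟨hx.1, by convert hx.2.1, by
      obtain ⟨A, B, hAB⟩ := hx.2.2
      refine ⟨A, B, ?_⟩
      unfold Satisfies
      convert hAB⟩
    unfold acceptance at h3
    rw [div_le_iff₀ (by rw [Nat.card_eq_fintype_card]; exact hR),
      Nat.card_eq_fintype_card (α := R)] at h3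
    refine (le_of_eq ?_).trans h3
    congr 1
    show _ = Nat.card ↥{ρ : R | (C ρ).Accepts x ∅}
    rw [Nat.card_coe_set_eq]
    congr 1
    ext ρ
    show (C ρ).τ ≤ (C ρ).val (Pool.Agent.Y630.TF.lit x ∅) (C ρ).out ↔
      (C ρ).τ ≤ (C ρ).val (literals x ∅) (C ρ).out
    rw [hlit]

end Pool.Agent.Results.MP_325f1f_lc.FaultyNegations
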