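import Pool.Agent.X246.UGL.Comp
import Pool.Agent.TH843.LR.Form

/-!
# Local reductions from gap 3-SAT to unique games must be large

The definitions used in the statement are `Represents`, `violated`, `Reads`, `SatOn` in
`Pool/Agent/TH700/UG/Defs.lean`, and `Clause`, `Satisfies`, `falsified` in
`Pool/Agent/W888/GX/Mix.lean`.

The known reductions from gap 3-SAT to Label Cover and unique games are local: every assignment has
an honest labeling, each label of which depends on few of the variables (those of a few clauses, in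
some encoding), and the edges come in gadgets for which it can be seen from few of the clauses that
the honest labeling of a satisfying assignment violates at most a fraction `ε` of the edges.
`Represents F d ε s t π` says this for the formula `F` and the unique game with the edges
`(s e, t e)` and the constraints `π e`: the number of edges violated by the honest labeling of `x` is
`ε |E| - ∑ p, g p x`, where `g p` depends on at most `d` variables and is nonnegative if `x`
satisfies the clauses of `F` inside them.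

The theorem: for some formulas `F` in `n` variables with `O(n)` clauses, at most a fraction
`7 / 8 + η` of which can be satisfied, every unique game, with any alphabet, which represents `F` with
locality `d` and completeness `1 - ε` and in which no labeling satisfies a fraction `1 - γ` of the
edges has more than `(c n / (d log (2 / γ))) ^ (1 / θ)` vertices,
`θ = 2 ^ 30 (ε / γ²) log (2 γ² / ε)`. So a local reduction from gap 3-SAT which shows that
`UG(ε, δ)` is hard has size at least `(n / d) ^ (c' (1 - δ)² / (ε log (1 / ε)))`: its exponent tends to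
infinity if `ε` tends to zero, for all `δ < 1`; and in a local reduction of size `n ^ C` some label
must depend on `n ^ (1 - O(C ε log (1 / ε) / (1 - δ)²))` variables. This is unconditional. (It is
known that reductions of size `n ^ (ε ^ (-o(1)))` would refute the exponential time hypothesis, by
the subexponential algorithm for unique games.)

Proof: for random formulas there is a pseudo-expectation of linear degree which satisfies all
clauses. Composed with the honest labeling it is a solution of level about `n / d` of the mixed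
hierarchy for the unique game, of value at least `1 - ε`. The rounding theorem for the mixed
hierarchy (`Pool/Agent/TH522/UG`) applies if the number of vertices to the power `θ` is smaller than
this level, and gives a labeling which satisfies a fraction `1 - γ` of the edges.
-/

set_option autoImplicit false

namespace Pool.Agent.Results.MP_325f1f_lc.LocalReductions

open Finset Pool.Agent.W888.GX Pool.Agent.TH700.UG

/-- For every `η > 0` there are `M` and `c > 0` such that for all large `n` there is a formula `F`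
with at least `n` and at most `M n` clauses, with three literals each, over `n` variables, every
assignment of which falsifies at least a fraction `1 / 8 - η` of the clauses, and with the following
property. Let `d ≥ 1`, `0 < γ < 1`, `0 < ε ≤ γ²` and `θ = 2 ^ 30 (ε / γ²) log (2 γ² / ε) ≤ 1`. If a
unique game with vertex set `V`, edges `(s e, t e)`, any finite alphabet `A` and constraints `π e`
represents `F` with locality `d` and completeness `1 - ε`, and if every labeling satisfies less than a
fraction `1 - γ` of the edges, then `|V| > (c n / (d log (2 / γ))) ^ (1 / θ)`. -/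
theorem result : ∀ η : ℝ, 0 < η →
    ∃ M : ℕ, 1 ≤ M ∧ ∃ c : ℝ, 0 < c ∧ ∃ n₀ : ℕ, ∀ n : ℕ, n₀ ≤ n →
      ∃ (I : Type) (_ : Fintype I) (F : I → Clause 3 n),
        n ≤ Fintype.card I ∧ Fintype.card I ≤ M * n ∧
        (∀ z, (1 / 8 - η) * (Fintype.card I : ℝ) ≤ (falsified F z : ℝ)) ∧
        ∀ (d : ℕ) (ε γ θ : ℝ) (V E A : Type) [Fintype V] [Fintype E] [Fintype A] [DecidableEq A]
          (s t : E → V) (π : E → Equiv.Perm A), 1 ≤ d → 0 < γ → γ < 1 → 0 < ε → ε ≤ γ ^ 2 →
          θ = 2 ^ 30 * (ε / γ ^ 2 * Real.log (2 * γ ^ 2 / ε)) → θ ≤ 1 →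
          Represents F d ε s t π →
          (∀ x : V → A, ((univ.filter fun e => π e (x (s e)) = x (t e)).card : ℝ) <
            (1 - γ) * Fintype.card E) →
          (c * n / (d * Real.log (2 / γ))) ^ (1 / θ) < Fintype.card V := by
  intro η hη
  obtain ⟨M, hM, c0, hc0, n0, hn0⟩ := Pool.Agent.TH843.LR.exists_formula_card η hη
  refine ⟨M, hM, c0 / 2 ^ 31, by positivity, n0, fun n hn => ?_⟩
  obtain ⟨I, hI, F, D0, L, hcard0, hcard, hfar, hD0, hL, hF⟩ := hn0 n hn
  refine ⟨I, hI, F, hcard0, hcard, hfar, ?_⟩
  intro d ε γ θ V E A _ _ _ _ s t π hd hγ hγ1 hε hεγ hθ hθ1 hR hno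
  classical
  by_contra hcon
  push Not at hcon
  have hdR : (1 : ℝ) ≤ d := by exact_mod_cast hd
  have hγ2 : (0 : ℝ) < γ ^ 2 := by positivity
  obtain ⟨z, hz⟩ : ∃ z : ℝ, z = ε / γ ^ 2 := ⟨_, rfl⟩
  have hz0 : 0 < z := by rw [hz]; positivity
  have hz1 : z ≤ 1 := by rw [hz, div_le_one hγ2]; exact hεγ
  have h2z : 2 * γ ^ 2 / ε = 2 / z := by rw [hz]; field_simp
  have hl2 := Real.log_two_gt_d9
  have hlz : Real.log 2 ≤ Real.log (2 / z) := by
    refine Real.log_le_log (by norm_num) ?_
    rw [le_div_iff₀ hz0]
    linarith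
  have hlz0 : 0 < Real.log (2 / z) := by linarith
  rw [← hz, h2z] at hθ
  have hθz : z ≤ θ := by
    rw [hθ]
    have h1 : (1 : ℝ) ≤ 2 ^ 30 * Real.log (2 / z) := by linarith
    nlinarith
  have hθ0 : 0 < θ := lt_of_lt_of_le hz0 hθz
  have hcond : 2 ^ 30 * (ε * Real.log (2 / θ)) ≤ θ * γ ^ 2 := by
    have h1 : Real.log (2 / θ) ≤ Real.log (2 / z) :=
      Real.log_le_log (by positivity) (div_le_div_of_nonneg_left (by norm_num) hz0 hθz)
    have h2 : θ * γ ^ 2 = 2 ^ 30 * (ε * Real.log (2 / z)) := by
      rw [hθ, hz]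
      field_simp
    rw [h2]
    have h3 := mul_le_mul_of_nonneg_left h1 hε.le
    linarith
  have hlγ : Real.log 2 ≤ Real.log (2 / γ) := by
    refine Real.log_le_log (by norm_num) ?_
    rw [le_div_iff₀ hγ]
    linarith
  have hlγ0 : 0 < Real.log (2 / γ) := by linarith
  obtain ⟨enc, P, hP, T, g, henc, hg, hsum⟩ := hR
  -- the game has a vertex
  have hE : 0 < (Fintype.card E : ℝ) := by
    have h1 := hno (enc 0)
    have h2 : (0 : ℝ) ≤ ((univ.filter fun e => π e (enc 0 (s e)) = enc 0 (t e)).card : ℝ) :=
      Nat.cast_nonneg _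
    by_contra h3
    have h4 : (Fintype.card E : ℝ) = 0 := le_antisymm (not_lt.1 h3) (Nat.cast_nonneg _)
    rw [h4, mul_zero] at h1
    linarith
  have hV : (1 : ℝ) ≤ Fintype.card V := by
    have h1 : 0 < Fintype.card E := by exact_mod_cast hE
    obtain ⟨e⟩ := Fintype.card_pos_iff.1 h1
    have h2 : 0 < Fintype.card V := Fintype.card_pos_iff.2 ⟨s e⟩
    exact_mod_cast h2
  have hVθ : (1 : ℝ) ≤ (Fintype.card V : ℝ) ^ θ := Real.one_le_rpow hV hθ0.le
  have hX0 : 0 ≤ c0 / 2 ^ 31 * n / (d * Real.log (2 / γ)) := by positivity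
  have hVX : (Fintype.card V : ℝ) ^ θ ≤ c0 / 2 ^ 31 * n / (d * Real.log (2 / γ)) := by
    rw [one_div] at hcon
    calc (Fintype.card V : ℝ) ^ θ ≤ ((c0 / 2 ^ 31 * n / (d * Real.log (2 / γ))) ^ θ⁻¹) ^ θ :=
          Real.rpow_le_rpow (Nat.cast_nonneg _) hcon hθ0.le
      _ = _ := Real.rpow_inv_rpow hX0 hθ0.ne'
  obtain ⟨B, hB⟩ : ∃ B : ℝ, B = 2 ^ 30 * (Real.log (2 / γ) * (Fintype.card V : ℝ) ^ θ) :=
    ⟨_, rfl⟩
  have hB3 : 3 ≤ B := by
    rw [hB]
    have h1 : (1 / 2 : ℝ) * 1 ≤ Real.log (2 / γ) * (Fintype.card V : ℝ) ^ θ :=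
      mul_le_mul (by linarith) hVθ (by norm_num) hlγ0.le
    linarith
  have hBd : 2 * B * d ≤ c0 * n := by
    rw [le_div_iff₀ (by positivity)] at hVX
    rw [hB]
    have h1 : (2 : ℝ) * (2 ^ 30 * (Real.log (2 / γ) * (Fintype.card V : ℝ) ^ θ)) * d =
        2 ^ 31 * ((Fintype.card V : ℝ) ^ θ * (d * Real.log (2 / γ))) := by ring
    rw [h1]
    calc (2 : ℝ) ^ 31 * ((Fintype.card V : ℝ) ^ θ * (d * Real.log (2 / γ))) ≤
          2 ^ 31 * (c0 / 2 ^ 31 * n) := mul_le_mul_of_nonneg_left hVX (by positivity)
      _ = c0 * n := by ring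
  obtain ⟨k, hk⟩ : ∃ k : ℕ, k = ⌈B⌉₊ := ⟨_, rfl⟩
  have hk1 : B ≤ k := by rw [hk]; exact Nat.le_ceil _
  have hk2 : (k : ℝ) < B + 1 := by
    rw [hk]; exact Nat.ceil_lt_add_one (by linarith)
  have hkD : (k + 2) * d ≤ D0 := by
    have h2 : (((k + 2) * d : ℕ) : ℝ) ≤ D0 := by
      push_cast
      calc ((k : ℝ) + 2) * d ≤ 2 * B * d :=
            mul_le_mul_of_nonneg_right (by linarith) (by linarith)
        _ ≤ c0 * n := hBd
        _ ≤ D0 := hD0
    exact_mod_cast h2
  have hmix := Pool.Agent.X246.UGL.mixed_comp hL enc henc hkD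
  have hval := Pool.Agent.X246.UGL.value_comp hL F hF s t π enc T g hg hsum
    (le_trans (Nat.le_mul_of_pos_left d (by omega)) hkD)
  obtain ⟨x, hx⟩ := Pool.Agent.TH522.UG.core (Pool.Agent.TH522.UG.hier_mixed V A) s t π θ γ ε
    hθ0 hθ1 hγ hγ1 hε (by norm_num at hcond ⊢; exact hcond) k
    (by rw [hB] at hk1; norm_num at hk1 ⊢; exact hk1) _ hmix hval
  have h1 := hno x
  linarith

end Pool.Agent.Results.MP_325f1f_lc.LocalReductions
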