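import Pool.Agent.X246.ACR.NegUp

/-!
# Unique games are not hard under reductions with fewer than log N negations

The conjecture asks for polynomial-time reductions. Every function of `N` bits, and every family of
such functions, is computed by circuits with about `log₂ N` NOT gates (Markov), and circuits of
polynomial size can be transformed into such circuits of polynomial size (Fischer). Here it is proved
that reductions that show the hardness of `UG_q(ε, δ)`, `ε + δ < 1`, for `NP`, or only for parity,
cannot have fewer negations, whatever their size: if the entries of the list of constraints are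
encoded by `b` bits and each of these bits is computed by a circuit with `t` NOT gates, then
`t ≥ log₂ (N / b) - O(1)`. For reductions, also randomised ones, that are correct for slightly more
than half of all inputs the least number of NOT gates is `log₂ (√N / b) - O(1)`. Both bounds are
optimal for every fixed `b`, up to the constant.

A reduction maps an input `x` with `N` bits to a list of edges with constraints, indexed by `R`
(`Y x r`, where `none` is an empty entry). `Correct Sat ε δ Y x`
(`Pool/Agent/X246/ACR/Ac0.lean`) says that the list is not empty and that its value is at least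
`1 - ε` if the number of ones of `x` is even, and at most `δ` if it is odd. `NegComp t f`
(`Pool/Agent/X246/ACR/NegMain.lean`, `Circ` in `Pool/Agent/X246/ACR/Neg.lean`) says that `f` is
computed at a gate of a circuit with `t` NOT gates, in which every other gate computes an arbitrary
monotone function of the inputs and of the results of all earlier gates.

The proof: by an argument of Markov a function that is computed with `t` NOT gates is a function of
`2 ^ (t + 1) - 1` monotone functions. So it changes at most `2 ^ (t + 1) - 1` times along the chain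
of the inputs `1 ^ j 0 ^ (N - j)`, and its average sensitivity is at most `(2 ^ (t + 1) - 1) √N`. But
a fraction `1 - ε - δ` of the entries must change whenever a yes instance becomes a no instance.
-/

set_option autoImplicit false

namespace Pool.Agent.Results.MP_325f1f_lc.NegationsInReductions

open Finset Pool.Agent.X246.ACR

open scoped Classical

/-- An edge `(u, v)` of a unique game with the alphabet `[q]`, and its constraint. -/
abbrev Edge (U V : Type) (q : ℕ) : Type := U × V × Equiv.Perm (Fin q)

/-- The labeling `l` satisfies the constraint: the permutation maps the label of `u` to that of `v`. -/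
def Sat {U V : Type} {q : ℕ} (l : (U → Fin q) × (V → Fin q)) (e : Edge U V q) : Prop :=
  e.2.2 (l.1 e.1) = l.2 e.2.1

/-- The list whose entry `r` is decoded by `dec r` from the values of the functions `F r j`. -/
def list {N b q : ℕ} {R U V : Type} (F : R → Fin b → (Fin N → Bool) → Bool)
    (dec : R → (Fin b → Bool) → Option (Edge U V q)) (x : Fin N → Bool) (r : R) :
    Option (Edge U V q) := dec r fun j => F r j x

/-- At least the fraction `κ` of the entries of the list is not empty. -/
def Long {R K : Type} [Fintype R] (κ : ℝ) (y : R → Option K) : Prop :=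
  κ * Fintype.card R ≤ ((univ.filter fun r => y r ≠ none).card : ℝ)

/-- the constraint `r` of the list for the upper bounds: a shift by `r`, or the identity -/
def entry {q : ℕ} [NeZero q] (r : Fin q) (u : Fin 1 → Bool) : Option (Edge Unit Unit q) :=
  some ((), (), if u 0 = true then Equiv.addRight r else 1)

theorem entry_correct {N q : ℕ} [NeZero q] (δ : ℝ) (hδ : 1 / q ≤ δ) (f : (Fin N → Bool) → Bool)
    (x : Fin N → Bool) (hx : f x = true ↔ Odd (ones x)) :
    Correct Sat 0 δ (list (fun (_ : Fin q) (_ : Fin 1) => f) entry) x := by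
  have hq : (0 : ℝ) < q := by exact_mod_cast Nat.pos_of_ne_zero (NeZero.ne q)
  have h0 : total (list (fun (_ : Fin q) (_ : Fin 1) => f) entry x) = q := by
    unfold total
    rw [filter_true_of_mem fun r _ => by simp [list, entry], card_univ, Fintype.card_fin]
  refine ⟨?_, ?_, ?_⟩
  · rw [h0]
    exact Nat.pos_of_ne_zero (NeZero.ne q)
  · intro hodd
    refine ⟨(fun _ => 0, fun _ => 0), ?_⟩
    have hf : ¬ f x = true := fun h => hodd (hx.1 h)
    have h1 : good Sat (list (fun (_ : Fin q) (_ : Fin 1) => f) entry x)
        (fun _ => 0, fun _ => 0) = q := by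
      unfold good
      rw [filter_true_of_mem ?_, card_univ, Fintype.card_fin]
      intro r _
      refine ⟨_, rfl, ?_⟩
      unfold Sat
      show (if f x = true then Equiv.addRight r else (1 : Equiv.Perm (Fin q))) 0 = 0
      rw [if_neg hf]
      rfl
    rw [h0, h1]
    simp
  · intro hodd l
    have hf : f x = true := hx.2 hodd
    have h1 : good Sat (list (fun (_ : Fin q) (_ : Fin 1) => f) entry x) l ≤ 1 := by
      unfold good
      rw [card_le_one]
      intro r hr s hs
      simp only [mem_filter, mem_univ, true_and] at hr hs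
      obtain ⟨k, hk, hk2⟩ := hr
      obtain ⟨m, hm, hm2⟩ := hs
      have h2 : k = ((), (), Equiv.addRight r) := by
        have := Option.some_injective _ hk
        rw [← this, if_pos hf]
      have h3 : m = ((), (), Equiv.addRight s) := by
        have := Option.some_injective _ hm
        rw [← this, if_pos hf]
      rw [h2] at hk2
      rw [h3] at hm2
      have h4 : l.1 () + r = l.2 () := hk2
      have h5 : l.1 () + s = l.2 () := hm2
      exact add_left_cancel (h4.trans h5.symm)
    rw [h0]
    have h2 : (good Sat (list (fun (_ : Fin q) (_ : Fin 1) => f) entry x) l : ℝ) ≤ 1 := by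
      exact_mod_cast h1
    have h3 : 1 / q * (q : ℝ) ≤ δ * q := mul_le_mul_of_nonneg_right hδ hq.le
    rw [one_div_mul_cancel hq.ne'] at h3
    linarith

/-- (1) Suppose that the list of `x`, each entry of which is encoded by `b` bits that are computed by
circuits with `t` NOT gates (one for each bit), is a yes instance of `UG_q(ε, δ)` for even and a no
instance for odd `x`, for the `N + 1` inputs `x = 1 ^ j 0 ^ (N - j)`, and that at least a fraction `κ`
of its entries is not empty. Then `(1 - ε - δ) κ N ≤ b (2 ^ (t + 1) - 1)`.

(2) If this holds for at least a fraction `1 / 2 + γ` of all pairs of an input `x` and a random choice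
`ω` then `2 (1 - ε - δ) κ γ √N ≤ b (2 ^ (t + 1) - 1)`.

(3) Conversely, if `N ≤ 2 ^ (t + 1) - 1` and `δ ≥ 1 / q` then for `b = 1` and `ε = 0` there is such
a reduction that is correct for all inputs.

(4) If `N ≤ (1 / 2 - γ) (2 ^ (t + 1) - 2) ^ 2` and `δ ≥ 1 / q` then for `b = 1` and `ε = 0` there
is such a reduction that is correct for a fraction `1 / 2 + γ` of all inputs. -/
theorem result :
    (∀ (N b t q : ℕ) (R U V : Type) [Fintype R] (ε δ κ : ℝ)
      (F : R → Fin b → (Fin N → Bool) → Bool) (dec : R → (Fin b → Bool) → Option (Edge U V q)),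
      (∀ r j, NegComp t (F r j)) → 0 ≤ ε → 0 ≤ δ → ε + δ < 1 →
      (∀ j ≤ N, Correct Sat ε δ (list F dec) (stair N j) ∧ Long κ (list F dec (stair N j))) →
      (1 - ε - δ) * κ * N ≤ b * (2 ^ (t + 1) - 1)) ∧
    (∀ (N b t q : ℕ) (Ω R U V : Type) [Fintype Ω] [Nonempty Ω] [Fintype R] (ε δ κ γ : ℝ)
      (F : Ω → R → Fin b → (Fin N → Bool) → Bool)
      (dec : R → (Fin b → Bool) → Option (Edge U V q)),
      (∀ ω r j, NegComp t (F ω r j)) → 0 ≤ ε → 0 ≤ δ → ε + δ < 1 → 0 ≤ κ → 0 < γ →
      (1 / 2 + γ) * (2 ^ N * Fintype.card Ω) ≤ ((univ.filter fun p : Ω × (Fin N → Bool) =>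
        Correct Sat ε δ (list (F p.1) dec) p.2 ∧ Long κ (list (F p.1) dec p.2)).card : ℝ) →
      2 * (1 - ε - δ) * κ * γ * √N ≤ b * (2 ^ (t + 1) - 1)) ∧
    (∀ (N t q : ℕ) (δ : ℝ), N ≤ 2 ^ (t + 1) - 1 → 1 ≤ q → 1 / q ≤ δ →
      ∃ (F : Fin q → Fin 1 → (Fin N → Bool) → Bool)
        (dec : Fin q → (Fin 1 → Bool) → Option (Edge Unit Unit q)),
        (∀ r j, NegComp t (F r j)) ∧
        ∀ x, Correct Sat 0 δ (list F dec) x ∧ Long 1 (list F dec x)) ∧
    (∀ (N t q : ℕ) (δ γ : ℝ), γ ≤ 1 / 2 → N ≤ (1 / 2 - γ) * (2 ^ (t + 1) - 2) ^ 2 → 1 ≤ q →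
      1 / q ≤ δ →
      ∃ (F : Fin q → Fin 1 → (Fin N → Bool) → Bool)
        (dec : Fin q → (Fin 1 → Bool) → Option (Edge Unit Unit q)),
        (∀ r j, NegComp t (F r j)) ∧
        (1 / 2 + γ) * 2 ^ N ≤ ((univ.filter fun x =>
          Correct Sat 0 δ (list F dec) x ∧ Long 1 (list F dec x)).card : ℝ)) := by
  have hlong : ∀ {N q : ℕ} [NeZero q] (f : (Fin N → Bool) → Bool) (x : Fin N → Bool),
      Long 1 (list (fun (_ : Fin q) (_ : Fin 1) => f) entry x) := by
    intro N q _ f x
    unfold Long
    rw [filter_true_of_mem fun r _ => by simp [list, entry], card_univ, one_mul]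
  refine ⟨?_, ?_, ?_, ?_⟩
  · intro N b t q R U V _ ε δ κ F dec hF hε hδ hεδ hA
    exact neg_worst (sat := Sat) hε hδ hεδ F hF dec fun j hj => hA j hj
  · intro N b t q Ω R U V _ _ _ ε δ κ γ F dec hF hε hδ hεδ hκ hγ hA
    obtain ⟨ω, hω⟩ := exists_index (fun ω x => Correct Sat ε δ (list (F ω) dec) x ∧
      Long κ (list (F ω) dec x)) γ (by convert hA)
    refine neg_avg (sat := Sat) hε hδ hεδ hκ hγ (F ω) (hF ω) dec (hω.trans (le_of_eq ?_))
    congr 2
    ext x
    simp only [mem_filter]
    exact Iff.rfl
  · intro N t q δ hN hq hδ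
    have : NeZero q := ⟨by omega⟩
    obtain ⟨f, hf, H⟩ := window (N := N) t 0 (by simp)
    refine ⟨fun _ _ => f, entry, fun _ _ => hf, fun x => ⟨?_, hlong f x⟩⟩
    exact entry_correct δ hδ f x (H x (Nat.zero_le _) ((ones_le x).trans (by omega)))
  · intro N t q δ γ hγ hN hq hδ
    have : NeZero q := ⟨by omega⟩
    obtain ⟨f, hf, H⟩ := most t γ hγ hN
    refine ⟨fun _ _ => f, entry, fun _ _ => hf, H.trans ?_⟩
    have : (univ.filter fun x : Fin N → Bool => (f x = true ↔ Odd (ones x))).card ≤
        (univ.filter fun x => Correct Sat 0 δ (list (fun (_ : Fin q) (_ : Fin 1) => f) entry) x ∧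
          Long 1 (list (fun (_ : Fin q) (_ : Fin 1) => f) entry x)).card := by
      refine card_le_card fun x hx => ?_
      rw [mem_filter] at hx ⊢
      exact ⟨mem_univ _, entry_correct δ hδ f x hx.2, hlong f x⟩
    exact_mod_cast this

end Pool.Agent.Results.MP_325f1f_lc.NegationsInReductions
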